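import Mathlib
import Pool.Agent.Helper483.Lac.Final

/-!
Homogeneous lacunary avoidance: `F(M) ≥ c / (M (log M)^{2/3})`, hence `F(M) M log M → ∞`.

The definitions used in the statement are the following ones, from
`Pool/Agent/Helper483/Lac/Defs.lean` and `Pool/Agent/Helper483/Lac/Defs2.lean`:

* `nd x = |x - round x|`, the distance from `x` to the nearest integer;
* `IsLac M t`: all `t j` are positive and `1 + 1 / M ≤ t (j + 1) / t j` for all `j`;
* `del t = ⨆ α : ℝ, ⨅ j : ℕ, nd (α * t j)`;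
* `F M`, the infimum of the set of the values `del t` over all `M`-lacunary sequences `t`.
-/

set_option autoImplicit false

namespace Pool.Agent.Results.MP_0d5018_nt.LowerBound

open Pool.Agent.Helper483.Lac Filter

theorem result :
    (∃ c : ℝ, 0 < c ∧ ∀ M : ℝ, 2 ≤ M → ∀ t : ℕ → ℝ, IsLac M t →
      ∃ α : ℝ, ∀ j : ℕ, c / (M * (Real.log M) ^ (2 / 3 : ℝ)) ≤ nd (α * t j)) ∧
    (∃ c : ℝ, 0 < c ∧ ∀ M : ℝ, 2 ≤ M → c / (M * (Real.log M) ^ (2 / 3 : ℝ)) ≤ F M) ∧
    Tendsto (fun M : ℝ => F M * M * Real.log M) atTop atTop := by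
  refine ⟨main_real, final.1, ?_⟩
  refine final.2.congr fun M => ?_
  ring

end Pool.Agent.Results.MP_0d5018_nt.LowerBound
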